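import Pool.Agent.N121.ZO.Mon
import Pool.Agent.N121.ZK.Main
import Pool.Agent.N121.OC.Arr

/-!
# Relations given by arrays of integers, at the scaled points, with the periods of the third kind
-/

set_option autoImplicit false
set_option linter.unusedSectionVars false

open Complex Set Filter Topology NumberField

namespace Pool.Agent.N121.ZO

open Pool.Agent.Y118.HP (qm bm dl dl_ne perC)
open Pool.Agent.Y890.MV
open Pool.Agent.Y890.SM
open Pool.Agent.Y890.SP (Qbar)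
open Pool.Agent.Y890.HE (Ord Ord_open)
open Pool.Agent.N121.OH (PE perF perF_eq)
open Pool.Agent.N121.AH (mi mm cst UU fp TorG scp q0 q0_map er ep perG perG_eq scf scf_ne u0 w0 w0_ne)
open Pool.Agent.N121.BF (Lm LmC LmC_apply sbl sh Lm_sh sh_self evX_sbl)
open Pool.Agent.N121.OC (EX Fr gx va1 arT arT_va rsT exLT exX TorY torFree full_free)
open Pool.Agent.N121.ZK

section gen

variable {τ : Type} [Fintype τ] [DecidableEq τ]

/-- rescaling with integral weights -/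
noncomputable def rsTW (ex : τ → Bool) (u : τ → ℤ) (Y : τ → ℂ) (y : τ) : ℂ :=
  ((u y : ℤ) : ℂ) ^ (if ex y then (-1 : ℤ) else 1) * Y y

/-- the factors -/
def wT {k : ℕ} (ex : τ → Bool) (u : τ → ℤ) (l : τ → Fin (k + 1)) : ℤ :=
  ∏ y, u y ^ (if ex y then k - (l y : ℕ) else k + (l y : ℕ))

/-- the total factor -/
def tT (u : τ → ℤ) (k : ℕ) : ℤ := ∏ y, u y ^ k

theorem tT_ne {u : τ → ℤ} (hu : ∀ y, u y ≠ 0) (k : ℕ) : tT u k ≠ 0 :=
  Finset.prod_ne_zero_iff.2 fun y _ => pow_ne_zero _ (hu y)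

theorem wT_le {k M : ℕ} (ex : τ → Bool) {u : τ → ℤ} {s : ℝ} (hs : 1 ≤ s) (hu : ∀ y, |(u y : ℝ)| ≤ s ^ M)
    (l : τ → Fin (k + 1)) : |(wT ex u l : ℝ)| ≤ s ^ (2 * (M * exLT τ k)) := by
  unfold wT
  rw [Int.cast_prod, Finset.abs_prod]
  have h1 : s ^ (2 * (M * exLT τ k)) = ∏ _y : τ, (s ^ M) ^ (2 * k) := by
    unfold exLT
    rw [Finset.prod_const, ← pow_mul, ← pow_mul, Finset.sum_const, smul_eq_mul]
    congr 1
    ring
  rw [h1]
  refine Finset.prod_le_prod (fun y _ => abs_nonneg _) fun y _ => ?_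
  rw [Int.cast_pow, abs_pow]
  have h2 : (l y : ℕ) ≤ k := Nat.lt_succ_iff.1 (l y).2
  have h3 : (1 : ℝ) ≤ s ^ M := one_le_pow₀ hs
  refine (pow_le_pow_left₀ (abs_nonneg _) (hu y) _).trans (pow_le_pow_right₀ h3 ?_)
  split_ifs <;> omega

theorem wT_eq {k : ℕ} (ex : τ → Bool) {u : τ → ℤ} (hu : ∀ y, u y ≠ 0) (Y : τ → ℂ) (l : τ → Fin (k + 1)) :
    ((tT u k : ℤ) : ℂ) * ∏ y, (rsTW ex u Y y) ^ (l y : ℕ) = ((wT ex u l : ℤ) : ℂ) * ∏ y, (Y y) ^ (l y : ℕ) := by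
  unfold tT wT
  rw [Int.cast_prod, Int.cast_prod, ← Finset.prod_mul_distrib, ← Finset.prod_mul_distrib]
  refine Finset.prod_congr rfl fun y _ => ?_
  have hs0 : ((u y : ℤ) : ℂ) ≠ 0 := by exact_mod_cast hu y
  unfold rsTW
  rw [mul_pow, ← mul_assoc, Int.cast_pow, Int.cast_pow]
  congr 1
  have h1 : (l y : ℕ) ≤ k := Nat.lt_succ_iff.1 (l y).2
  obtain ⟨d, hd⟩ := Nat.exists_eq_add_of_le h1
  have h2 : k - (l y : ℕ) = d := by omega
  have h5 : ((u y : ℤ) : ℂ) ^ k = ((u y : ℤ) : ℂ) ^ (l y : ℕ) * ((u y : ℤ) : ℂ) ^ d := by rw [← pow_add, ← hd]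
  split_ifs with h3
  · rw [h2, zpow_neg_one, h5, inv_pow]
    field_simp
  · rw [zpow_one, ← pow_add]

theorem arTW {k : ℕ} {h : Type} [Fintype h] (ex : τ → Bool) {u : τ → ℤ} (hu : ∀ y, u y ≠ 0)
    (c : (τ → Fin (k + 1)) → h → ℂ) (v : h → ℂ) (Y : τ → ℂ) :
    ((tT u k : ℤ) : ℂ) * arT c v (rsTW ex u Y) = arT (fun l a => ((wT ex u l : ℤ) : ℂ) * c l a) v Y := by
  unfold arT
  rw [Finset.mul_sum]
  refine Finset.sum_congr rfl fun l _ => ?_
  have h1 := wT_eq ex hu Y l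
  have h2 : (∑ a, v a * (((wT ex u l : ℤ) : ℂ) * c l a)) = ((wT ex u l : ℤ) : ℂ) * ∑ a, v a * c l a := by
    rw [Finset.mul_sum]
    refine Finset.sum_congr rfl fun a _ => ?_
    ring
  rw [h2]
  linear_combination (∑ a, v a * c l a) * h1

theorem rsTW_inv (ex : τ → Bool) {u : τ → ℤ} (hu : ∀ y, u y ≠ 0) (Y : τ → ℂ) :
    rsTW ex u (fun y => ((u y : ℤ) : ℂ) ^ (-(if ex y then (-1 : ℤ) else 1)) * Y y) = Y := by
  funext y
  have hs0 : ((u y : ℤ) : ℂ) ≠ 0 := by exact_mod_cast hu y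
  unfold rsTW
  rw [← mul_assoc, ← zpow_add₀ hs0, add_neg_cancel, zpow_zero, one_mul]

/-- the integral array with values in the ring of integers of `ℚ` -/
def zT {k : ℕ} {h : Type} (ex : τ → Bool) (u : τ → ℤ) (c : (τ → Fin (k + 1)) → h → ℤ) (l : τ → Fin (k + 1))
    (a : h) : 𝓞 ℚ := (wT ex u l * c l a : ℤ)

theorem zT_map {k : ℕ} {h : Type} (ex : τ → Bool) (u : τ → ℤ) (c : (τ → Fin (k + 1)) → h → ℤ) (l : τ → Fin (k + 1))
    (a : h) (φ : ℚ →+* ℂ) : φ (zT ex u c l a : ℚ) = ((wT ex u l : ℤ) : ℂ) * (c l a : ℂ) := by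
  unfold zT
  simp

end gen

section tor

variable {κ : Type} {m : κ → ℕ}

/-- the curve of a coordinate -/
def ixE (m : κ → ℕ) : EX m → κ := Sum.elim (fun p => p.1) (fun s => s.1)

theorem rsTW_tor {t : κ → ℤ} (ht : ∀ i, t i ≠ 0) {Y : EX m → ℂ} {μ : ℂ} :
    (rsTW (exX m) (fun y => t (ixE m y)) Y, μ) ∈ TorY m ↔ (Y, μ) ∈ TorY m := by
  unfold TorY
  simp only [Set.mem_ofPred_eq]
  have h1 : (fun i => bl (fun s => rsTW (exX m) (fun y => t (ixE m y)) Y (Sum.inl s)) i) =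
      rsW m t (fun i => bl (fun s => Y (Sum.inl s)) i) := by
    funext i
    ext l j
    show rsTW (exX m) (fun y => t (ixE m y)) Y (Sum.inl ⟨i, (l, j)⟩) =
      ((t i : ℤ) : ℂ) ^ ep (m i) j * Y (Sum.inl ⟨i, (l, j)⟩)
    unfold rsTW ep exX ixE
    simp only [Sum.elim_inl, decide_eq_true_eq]
  rw [h1, rsW_tor ht]

end tor

variable {ι : Type} {n : ι → ℕ} [Fintype ι] [DecidableEq ι] {q : ℕ} {w : Fin (q + 1) → ℂ} {hw : w 0 = 1} {f : Sh n}

/-- the periods of all kinds -/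
noncomputable def fZ (f : Sh n) (w : Fin (q + 1) → ℂ) (hw : w 0 = 1) : EZ n → (XZ n q → ℂ) → ℂ :=
  Sum.elim (zkF f w hw).f (fun s y => frZ f (Lm w y) s)

/-- the torsor -/
def TorZ (f : Sh n) (w : Fin (q + 1) → ℂ) (hw : w 0 = 1) (x : XZ n q → ℂ) : Set (EZ n → ℂ) :=
  {Y | (fun s => Y (Sum.inl s)) ∈ (zkF f w hw).Tor x}

theorem torZ : TorM (zkF f w hw).U (fZ f w hw) (TorZ f w hw) := by
  refine torFree (zkF f w hw).tor _ ?_
  intro p hp y hy z
  have h1 := free_Z f (MvPolynomial.map (sbl w y) p) (fun x hx => by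
    rw [evX_sbl]
    have h2 : sh w y x ∈ (zkF f w hw).U := by
      show Lm w (sh w y x) ∈ DD f
      rw [Lm_sh hw]
      exact hx
    have h3 := hp _ h2
    have h4 : (fun s => (zkF f w hw).f s (sh w y x)) = fun s => PB f x s.1 s.2.1 s.2.2 := by
      funext s
      show PB f (Lm w (sh w y x)) s.1 s.2.1 s.2.2 = PB f x s.1 s.2.1 s.2.2
      rw [Lm_sh hw]
    have h5 : (fun s => frZ f (Lm w (sh w y x)) s) = frZ f x := by
      rw [Lm_sh hw]
    rw [h4, h5] at h3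
    exact h3) z (Lm w y) hy
  rw [evX_sbl, sh_self] at h1
  exact h1

theorem frZ_an (s : FZ n) : AnalyticOnNhd ℂ (fun a => frZ f a s) (DD f) := by
  refine Pool.Agent.Y785.MV.Osg.t _ _ (DD_open f) _ ?_
  intro a ha
  refine DifferentiableAt.differentiableWithinAt ?_
  unfold frZ
  simp only [Matrix.smul_apply, smul_eq_mul]
  refine (sg_diffAt s.1 ha.1).mul ?_
  unfold PE
  simp only [Matrix.of_apply]
  refine DifferentiableAt.const_mul (DifferentiableAt.const_mul ?_ _) _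
  have h1 : DifferentiableAt ℂ (fun e : Fin (nS n s.1 + 1) → ℂ => perC e (cst s.2.2) (gx s.2.1))
      (fun r => EE f a (emS f s.1 r)) :=
    (Y890.HE.differentiableOn_perC (cst s.2.2) (gx s.2.1)).differentiableAt
      ((Ord_open _).mem_nhds (emS_ord f s.1 ha.2))
  have h2 : DifferentiableAt ℂ (fun (a : (Σ i, Fin (n i + 2)) → ℂ) (r : Fin (nS n s.1 + 1)) => EE f a (emS f s.1 r)) a :=
    differentiableAt_pi.2 fun r => differentiableAt_pi.1 (EE_diffAt f ha.1) (emS f s.1 r)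
  exact DifferentiableAt.comp a (g := fun e : Fin (nS n s.1 + 1) → ℂ => perC e (cst s.2.2) (gx s.2.1))
    (f := fun (a : (Σ i, Fin (n i + 2)) → ℂ) (r : Fin (nS n s.1 + 1)) => EE f a (emS f s.1 r)) h1 h2

theorem fZ_an (s : EZ n) : AnalyticOnNhd ℂ (fZ f w hw s) (zkF f w hw).U := by
  rcases s with s | s
  · exact (zkF f w hw).an s.1 s.2.1 s.2.2
  · intro y hy
    have h1 := frZ_an (f := f) s (Lm w y) hy
    have h2 : AnalyticAt ℂ (fun y => Lm w y) y := by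
      have h3 : (fun y : (Σ i, Fin (n i + 2)) × Fin (q + 1) → ℂ => Lm w y) = fun y => LmC w y := by
        funext y
        rw [LmC_apply]
      rw [h3]
      exact (LmC w).analyticAt y
    exact AnalyticAt.fun_comp (g := fun x => frZ f x s) h1 h2

/-- the periods of the third kind -/
noncomputable def PTZ (n : ι → ℕ) (a : (Σ i, Fin (n i + 2)) → ℂ) (e : ∀ S : Cu ι, Fin (nS n S + 1) → ℂ) (s : FZ n) : ℂ :=
  perG ((FS (pj a) s.1).coeff (nS n s.1 + 1)) (e s.1) (cst s.2.2) (gx s.2.1)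

/-- all periods -/
noncomputable def PXZ (n : ι → ℕ) (a : (Σ i, Fin (n i + 2)) → ℂ) (e : ∀ S : Cu ι, Fin (nS n S + 1) → ℂ) : EZ n → ℂ :=
  Sum.elim (fun p => PMZ n a e p.1 p.2.1 p.2.2) (PTZ n a e)

/-- the values of the functions -/
noncomputable def fAZ (f : Sh n) (x : (Σ i, Fin (n i + 2)) → ℂ) : EZ n → ℂ :=
  Sum.elim (fun p => PB f x p.1 p.2.1 p.2.2) (frZ f x)

theorem fZ_fAZ (y : XZ n q → ℂ) : (fun s => fZ f w hw s y) = fAZ f (Lm w y) := by
  funext s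
  rcases s with s | s <;> rfl

/-- **scaling of the periods** -/
theorem PXZ_scale {s : ℕ} (hs : 0 < s) {x : (Σ i, Fin (n i + 2)) → ℂ} (hx : x ∈ DD f) :
    ∃ t : Cu ι → ℤ, (∀ S, t S ≠ 0) ∧ (∀ S, |(t S : ℝ)| ≤ (s : ℝ) ^ Fintype.card ι) ∧
      PXZ n (scp n s x) (eS f (scp n s x)) = rsTW (exX (nS n)) (fun y => t (ixE (nS n) y)) (fAZ f x) := by
  have hs0 : (0 : ℝ) < s := by exact_mod_cast hs
  have hs1 : (1 : ℝ) ≤ s := by exact_mod_cast hs
  have hy := (DD_scale hs0 hx).1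
  choose ε hε1 hε2 using fun S => scf_sgn hy.1 f S
  have hεε : ∀ S, ((ε S : ℤ) : ℂ) * ε S = 1 := by
    intro S
    rcases hε1 S with h | h <;> rw [h] <;> norm_num
  have hεi : ∀ S, ((ε S : ℤ) : ℂ)⁻¹ = ε S := fun S => inv_eq_of_mul_eq_one_right (hεε S)
  refine ⟨fun S => ε S * (s : ℤ) ^ S.1.card, fun S => ?_, fun S => ?_, ?_⟩
  · refine mul_ne_zero ?_ (pow_ne_zero _ (by exact_mod_cast hs.ne'))
    rcases hε1 S with h | h <;> rw [h] <;> norm_num
  · have h1 : |((ε S : ℤ) : ℝ)| = 1 := by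
      rcases hε1 S with h | h <;> rw [h] <;> norm_num
    push_cast
    rw [abs_mul, h1, one_mul, abs_of_nonneg (by positivity)]
    exact pow_le_pow_right₀ hs1 (Finset.card_le_univ _)
  · funext y
    rcases y with ⟨S, l, i⟩ | ⟨S, u, l⟩
    · have h1 : PMZ n (scp n s x) (eS f (scp n s x)) S = (ε S : ℂ) • PB f (scp n s x) S := by
        unfold PMZ
        have h2 := PF_PW (FS (pj (scp n s x)) S) (emS_ord f S hy.2)
        show AH.PF (FS (pj (scp n s x)) S) (fun r => u0 * EE f (scp n s x) (emS f S r)) = _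
        rw [h2, hε2]
        unfold PB
        rcases hε1 S with h | h
        · rw [h]
          simp
        · rw [h]
          simp only [Int.reduceNeg, Int.cast_neg, Int.cast_one, neg_mul, one_mul, neg_smul, one_smul]
          exact PW_neg _ _ _
      show PMZ n (scp n s x) (eS f (scp n s x)) S l i = _
      rw [h1, Matrix.smul_apply, smul_eq_mul, PB_scale hs0 hx]
      unfold rsTW exX ixE fAZ
      simp only [Sum.elim_inl, decide_eq_true_eq]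
      have h3 : (((ε S * (s : ℤ) ^ S.1.card : ℤ)) : ℂ) = ε S * ((s : ℝ) : ℂ) ^ S.1.card := by
        push_cast
        rfl
      rw [h3, mul_zpow]
      unfold ep
      split_ifs
      · rw [zpow_neg_one, zpow_neg_one, hεi]
        ring
      · rw [zpow_one, zpow_one]
        ring
    · show perG ((FS (pj (scp n s x)) S).coeff (nS n S + 1)) (eS f (scp n s x) S) (cst l) (gx u) = _
      rw [perG_eq, hε2, sg_scale hs0 hx.1]
      have h5 := perF_eq (emS_ord f S hy.2) (cst l) (gx u)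
      have h6 : perF (eS f (scp n s x) S) (cst l) (gx u) = _ := h5
      rw [h6, (DD_scale hs0 hx).2]
      unfold rsTW exX ixE fAZ frZ
      simp only [Sum.elim_inr, if_true]
      rw [Matrix.smul_apply, smul_eq_mul, zpow_neg_one]
      have h3 : (((ε S * (s : ℤ) ^ S.1.card : ℤ)) : ℂ) = ε S * ((s : ℝ) : ℂ) ^ S.1.card := by
        push_cast
        rfl
      rw [h3, mul_inv, mul_inv, mul_inv]
      have h7 : PE w0 (fun r => EE f x (emS f S r)) (cst l) (gx u) = dl (cst l) *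
        (((1 + I : ℂ) ^ (1 / 2 : ℂ)) ^ (2 * ((gx u : Fin (nS n S)) : ℤ) + 1 - nS n S) *
          perC (fun r => EE f x (emS f S r)) (cst l) (gx u)) := rfl
      rw [h7]
      ring

theorem torZ_iff {x : XZ n q → ℂ} {Y : EZ n → ℂ} : Y ∈ TorZ f w hw x ↔ (Y, tpi) ∈ TorY (nS n) := by
  unfold TorZ TorY
  simp only [Set.mem_ofPred_eq]
  exact Z_tor

/-- **Relations given by arrays**: outside the exceptional sets of the family, at the scaled point -/
theorem good_arrO {k M : ℕ} {h : Type} [Fintype h] {v : h → ℂ} {s : ℝ} (hs : 1 ≤ s) {t : Cu ι → ℤ}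
    (ht : ∀ S, t S ≠ 0) (htM : ∀ S, |(t S : ℝ)| ≤ s ^ M)
    {xq : XZ n q → ℚ} {Lc : Set (XZ n q → ℂ)} {A T : ℝ}
    (h1 : ∀ j, Y120.HtLe ℚ T (xq j)) (h2 : (fun j => (algebraMap ℚ ℂ) (xq j)) ∈ Lc)
    (h3 : xq ∉ ExcT k (fZ f w hw) (TorZ f w hw) Lc ℚ (algebraMap ℚ ℂ) v A T)
    (c : (EZ n → Fin (k + 1)) → h → ℤ)
    (hc : ∀ l a, s ^ (2 * (M * exLT (EZ n) k)) * |(c l a : ℝ)| ≤ T ^ A)
    (h4 : arT (fun l a => (c l a : ℂ)) v (rsTW (exX (nS n)) (fun y => t (ixE (nS n) y))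
      (fAZ f (Lm w fun j => (algebraMap ℚ ℂ) (xq j)))) = 0) :
    (∀ Y, (Y, tpi) ∈ TorY (nS n) → arT (fun l a => (c l a : ℂ)) v Y = 0) ∧
    ∀ Y ∈ TorZ f w hw (fun j => (algebraMap ℚ ℂ) (xq j)),
      arT (fun l a => (algebraMap ℚ ℂ) (zT (exX (nS n)) (fun y => t (ixE (nS n) y)) c l a : ℚ)) v Y = 0 := by
  classical
  set u : EZ n → ℤ := fun y => t (ixE (nS n) y) with hu
  have hu0 : ∀ y, u y ≠ 0 := fun y => ht _
  have huM : ∀ y, |(u y : ℝ)| ≤ s ^ M := fun y => htM _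
  have htI : ((tT u k : ℤ) : ℂ) ≠ 0 := by exact_mod_cast tT_ne hu0 k
  have hcast : (fun (l : EZ n → Fin (k + 1)) (a : h) => ((wT (exX (nS n)) u l : ℤ) : ℂ) * (c l a : ℂ)) =
      fun l a => (algebraMap ℚ ℂ) (zT (exX (nS n)) u c l a : ℚ) := by
    funext l a
    rw [zT_map]
  have key : ∀ Y ∈ TorZ f w hw (fun j => (algebraMap ℚ ℂ) (xq j)),
      arT (fun l a => (algebraMap ℚ ℂ) (zT (exX (nS n)) u c l a : ℚ)) v Y = 0 := by
    by_contra hne
    apply h3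
    refine ⟨h1, h2, zT (exX (nS n)) u c, ?_, ?_, hne⟩
    · intro l a φ
      rw [zT_map, norm_mul]
      have e1 : ‖((wT (exX (nS n)) u l : ℤ) : ℂ)‖ = |(wT (exX (nS n)) u l : ℝ)| := by
        rw [← Complex.ofReal_intCast, Complex.norm_real, Real.norm_eq_abs]
      have e2 : ‖(c l a : ℂ)‖ = |(c l a : ℝ)| := by
        rw [← Complex.ofReal_intCast, Complex.norm_real, Real.norm_eq_abs]
      rw [e1, e2]
      refine le_trans ?_ (hc l a)
      exact mul_le_mul_of_nonneg_right (wT_le _ hs huM l) (abs_nonneg _)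
    · have e1 := arTW (exX (nS n)) hu0 (fun l a => (c l a : ℂ)) v (fAZ f (Lm w fun j => (algebraMap ℚ ℂ) (xq j)))
      rw [h4, mul_zero, hcast] at e1
      have e3 : arT (fun l a => (algebraMap ℚ ℂ) (zT (exX (nS n)) u c l a : ℚ)) v
          (fun s => fZ f w hw s (fun j => (algebraMap ℚ ℂ) (xq j))) = 0 := by
        rw [fZ_fAZ]
        exact e1.symm
      exact e3
  refine ⟨fun Y hY => ?_, key⟩
  set Z : EZ n → ℂ := fun y => ((u y : ℤ) : ℂ) ^ (-(if exX (nS n) y then (-1 : ℤ) else 1)) * Y y with hZ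
  have hZY : rsTW (exX (nS n)) u Z = Y := rsTW_inv (exX (nS n)) hu0 Y
  rw [← hZY, hu, rsTW_tor ht] at hY
  have h6 := key _ (torZ_iff.2 hY)
  have e1 := arTW (exX (nS n)) hu0 (fun l a => (c l a : ℂ)) v Z
  rw [hcast, h6, hZY] at e1
  exact (mul_eq_zero.1 e1).resolve_left htI

/-- relations with powers of `2 π i` as coefficients: all multipliers -/
theorem good_fullO {k M h : ℕ} {s : ℝ} (hs : 1 ≤ s) {t : Cu ι → ℤ}
    (ht : ∀ S, t S ≠ 0) (htM : ∀ S, |(t S : ℝ)| ≤ s ^ M)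
    {xq : XZ n q → ℚ} {Lc : Set (XZ n q → ℂ)} {A T : ℝ}
    (h1 : ∀ j, Y120.HtLe ℚ T (xq j)) (h2 : (fun j => (algebraMap ℚ ℂ) (xq j)) ∈ Lc) (hL : Lc ⊆ (zkF f w hw).U)
    (h3 : xq ∉ ExcT k (fZ f w hw) (TorZ f w hw) Lc ℚ (algebraMap ℚ ℂ) (fun a : Fin h => tpi ^ (a : ℕ)) A T)
    (c : (EZ n → Fin (k + 1)) → Fin h → ℤ)
    (hc : ∀ l a, s ^ (2 * (M * exLT (EZ n) k)) * |(c l a : ℝ)| ≤ T ^ A)
    (h4 : arT (fun l a => (c l a : ℂ)) (fun a : Fin h => tpi ^ (a : ℕ))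
      (rsTW (exX (nS n)) (fun y => t (ixE (nS n) y)) (fAZ f (Lm w fun j => (algebraMap ℚ ℂ) (xq j)))) = 0) :
    ∀ p ∈ TorY (nS n), arT (fun l a => (c l a : ℂ)) (fun a : Fin h => p.2 ^ (a : ℕ)) p.1 = 0 := by
  classical
  obtain ⟨-, h5⟩ := good_arrO hs ht htM h1 h2 h3 c hc h4
  set u : EZ n → ℤ := fun y => t (ixE (nS n) y) with hu
  have hu0 : ∀ y, u y ≠ 0 := fun y => ht _
  have htI : ((tT u k : ℤ) : ℂ) ≠ 0 := by exact_mod_cast tT_ne hu0 k
  have hcast : (fun (l : EZ n → Fin (k + 1)) (a : Fin h) => ((wT (exX (nS n)) u l : ℤ) : ℂ) * (c l a : ℂ)) =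
      fun l a => (algebraMap ℚ ℂ) (zT (exX (nS n)) u c l a : ℚ) := by
    funext l a
    rw [zT_map]
  rintro ⟨Y, μ⟩ hY
  set Z : EZ n → ℂ := fun y => ((u y : ℤ) : ℂ) ^ (-(if exX (nS n) y then (-1 : ℤ) else 1)) * Y y with hZ
  have hZY : rsTW (exX (nS n)) u Z = Y := rsTW_inv (exX (nS n)) hu0 Y
  rw [← hZY, hu, rsTW_tor ht] at hY
  have h6 := full_free (zkF f w hw) xq (hL h2) (fun l a => (zT (exX (nS n)) u c l a : ℚ)) (fun Y hY => h5 Y hY) hY.1
    (fun s => Z (Sum.inl s)) (fun S => by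
      have e1 := hY.2 S
      show bl (fun s => Z (Sum.inl s)) S * ((zkF f w hw).Q S).map (MvPolynomial.aeval (fun j => (algebraMap ℚ ℂ) (xq j))) *
        (bl (fun s => Z (Sum.inl s)) S).transpose = μ ^ 1 • (bm ℚ (mS n S)).map (algebraMap ℚ ℂ)
      rw [Q_evalZ, pow_one]
      exact e1) (fun s => Z (Sum.inr s))
  have h7 : Sum.elim (fun s => Z (Sum.inl s)) (fun s => Z (Sum.inr s)) = Z := Sum.elim_comp_inl_inr Z
  rw [h7] at h6
  have e1 := arTW (exX (nS n)) hu0 (fun l a => (c l a : ℂ)) (fun a : Fin h => μ ^ (a : ℕ)) Z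
  rw [hcast, h6, hZY] at e1
  exact (mul_eq_zero.1 e1).resolve_left htI

end Pool.Agent.N121.ZO
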