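import Pool.Agent.N121.ZK.Arr
import Pool.Agent.N121.OC.Tor

/-!
# The periods of the third kind of all the curves are free over the periods of the first and second kind
-/

set_option autoImplicit false
set_option linter.unusedSectionVars false

open Filter Matrix Topology

namespace Pool.Agent.N121.ZO

open Pool.Agent.Y118.HP (jm jm_apply SpS jm_det jm_transpose jm_map qm dl dl_ne bm bm_eq perC TV jm_mulVec ext0)
open Pool.Agent.Y890.MV
open Pool.Agent.Y890.HE
open Pool.Agent.Y890.SM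
open Pool.Agent.N121.OH hiding w0 w0_sq w0_ne
open Pool.Agent.N121.AH
open Pool.Agent.N156.HC (MJ)
open Pool.Agent.N121.OC (nu rho wk gx odd_of Fr EX ker_cf nu_dl TV_TV jm_nu rho_an rho_ne spz spz_ev)
open Pool.Agent.N121.ZK

variable {ι : Type} {n : ι → ℕ} [Fintype ι]

section kernel

/-- the bilinear relations for all loops -/
theorem PG_riemannS {m : ℕ} {σ c : ℂ} (hc : c ≠ 0) (hσ : σ ^ 2 = c * (-1) ^ m) {e : Fin (m + 1) → ℂ} (he : e ∈ Ord m)
    {F : Polynomial ℂ} (hF : F = Polynomial.C c * rp fun r => u0 * e r) :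
    (σ⁻¹ • PE w0 e) * qm m F * (σ⁻¹ • PE w0 e).transpose = tpi • (bm ℚ m).map (algebraMap ℚ ℂ) := by
  have hσ0 : σ ≠ 0 := by
    rintro rfl
    have h1 : c * (-1) ^ m ≠ 0 := mul_ne_zero hc (pow_ne_zero _ (by norm_num))
    exact h1 (by rw [← hσ]; ring)
  have h1 := PE_riemannG w0_sq w0_ne he
  have h1' : PE w0 e * qm m (rp fun r => u0 * e r) * (PE w0 e).transpose =
      ((-1) ^ m * tpi) • (bm ℚ m).map (algebraMap ℚ ℂ) := h1
  rw [hF, qm_C_mul, Matrix.transpose_smul, Matrix.smul_mul, Matrix.mul_smul, Matrix.smul_mul, Matrix.mul_smul,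
    Matrix.smul_mul, h1', smul_smul, smul_smul, smul_smul]
  congr 1
  field_simp
  rw [hσ]

theorem nu_PGS {m : ℕ} (σ : ℂ) (e : Fin (m + 1) → ℂ) (k : Fin m) :
    (nu ℂ m ᵥ* (σ⁻¹ • PE w0 e)) k = σ⁻¹ * (2 * (wk m k * rho e k)) := by
  unfold rho
  rw [Matrix.vecMul, dotProduct, Finset.mul_sum, Finset.mul_sum, Finset.mul_sum]
  refine Finset.sum_congr rfl fun i _ => ?_
  rw [Matrix.smul_apply, smul_eq_mul]
  unfold PE wk
  rw [Matrix.of_apply]
  have h1 := nu_dl (n := m) i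
  have h2 : FM e i k = perC e i k := rfl
  rw [h2]
  linear_combination (σ⁻¹ * w0 ^ (2 * (k : ℤ) + 1 - m) * perC e i k) * h1

/-- the forms of the second kind have no residue at infinity -/
theorem rho_gen {m : ℕ} (hm : Odd m) {σ c : ℂ} (hc : c ≠ 0) (hσ : σ ^ 2 = c * (-1) ^ m) {e : Fin (m + 1) → ℂ}
    (he : e ∈ Ord m) {F : Polynomial ℂ} (hF : F = Polynomial.C c * rp fun r => u0 * e r)
    (hd : ∀ k, m + 1 < k → F.coeff k = 0) (i : Fin (mm m)) :
    ∑ k : Fin m, wk m k * rho e k * cf m F k i = 0 := by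
  have hσ0 : σ ≠ 0 := by
    rintro rfl
    have h1 : c * (-1) ^ m ≠ 0 := mul_ne_zero hc (pow_ne_zero _ (by norm_num))
    exact h1 (by rw [← hσ]; ring)
  have h0 := PG_riemannS hc hσ he hF
  have h1 := ker_cf hd h0 (by
    rw [bm_eq, Matrix.vecMul_smul, Matrix.vecMul_smul]
    have h5 : nu ℂ m ᵥ* jm ℂ m = 0 := by
      rw [← Matrix.mulVec_transpose, jm_transpose, Matrix.neg_mulVec, jm_nu hm, neg_zero]
    rw [h5, smul_zero, smul_zero]) (by
    have h5 : (tpi • (bm ℚ m).map (algebraMap ℚ ℂ)).submatrix (cst (n := m)) cst = (tpi * (-2 : ℂ)) • jm ℂ (mm m) := by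
      rw [bm_eq, smul_smul]
      ext r s
      rfl
    rw [h5, Matrix.det_smul]
    exact mul_ne_zero (pow_ne_zero _ (mul_ne_zero tpi_ne (by norm_num))) (jm_det (mm_even m)))
  have h2 : ∑ k : Fin m, (nu ℂ m ᵥ* (σ⁻¹ • PE w0 e)) k * cf m F k i = 0 := congrFun h1 i
  simp only [nu_PGS] at h2
  have h4 : σ⁻¹ * 2 * ∑ k : Fin m, wk m k * rho e k * cf m F k i = 0 := by
    rw [Finset.mul_sum, ← h2]
    refine Finset.sum_congr rfl fun k _ => ?_
    ring
  exact (mul_eq_zero.1 h4).resolve_left (mul_ne_zero (inv_ne_zero hσ0) (by norm_num))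

end kernel

section roots

/-- the tuples which preserve the relations of the periods in terms of the roots -/
def InvT (f : Sh n) (g : MJ (nS n)) : Prop :=
  ∀ p : MvPolynomial (Ix (nS n)) (MvPolynomial (Fin (NN n + 1)) ℂ),
    (∀ e ∈ Ord (NN n), evX e (fun q => N156.HC.PF (emS f) e q.1 q.2.1 q.2.2) p = 0) →
      ∀ e ∈ Ord (NN n), evX e (fun q => (g * N156.HC.PF (emS f) e) q.1 q.2.1 q.2.2) p = 0

/-- substitution `X ↦ g X` -/
noncomputable def sbT (g : MJ (nS n)) : MvPolynomial (Ix (nS n)) (MvPolynomial (Fin (NN n + 1)) ℂ) →+*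
    MvPolynomial (Ix (nS n)) (MvPolynomial (Fin (NN n + 1)) ℂ) :=
  MvPolynomial.eval₂Hom MvPolynomial.C (fun q => ∑ k, MvPolynomial.C (MvPolynomial.C (g q.1 q.2.1 k)) *
    MvPolynomial.X (⟨q.1, (k, q.2.2)⟩ : Ix (nS n)))

theorem sbT_ev (g : MJ (nS n)) (e : Fin (NN n + 1) → ℂ) (Z : MJ (nS n))
    (p : MvPolynomial (Ix (nS n)) (MvPolynomial (Fin (NN n + 1)) ℂ)) :
    evX e (fun q => Z q.1 q.2.1 q.2.2) (sbT g p) = evX e (fun q => (g * Z) q.1 q.2.1 q.2.2) p := by
  have h1 : (MvPolynomial.eval₂Hom (MvPolynomial.eval e) (fun q : Ix (nS n) => Z q.1 q.2.1 q.2.2)).comp (sbT g) =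
      MvPolynomial.eval₂Hom (MvPolynomial.eval e) (fun q => (g * Z) q.1 q.2.1 q.2.2) := by
    refine MvPolynomial.ringHom_ext (fun b => ?_) (fun q => ?_)
    · simp [sbT]
    · simp [sbT, Matrix.mul_apply]
  exact congrArg (fun g => g p) h1

theorem invT_mul {f : Sh n} {g h : MJ (nS n)} (hg : InvT f g) (hh : InvT f h) : InvT f (g * h) := by
  intro p hp e he
  have h1 : ∀ e ∈ Ord (NN n), evX e (fun q => N156.HC.PF (emS f) e q.1 q.2.1 q.2.2) (sbT g p) = 0 := by
    intro e he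
    rw [sbT_ev]
    exact hg p hp e he
  have h2 := hh _ h1 e he
  rw [sbT_ev] at h2
  rw [mul_assoc]
  exact h2

variable [DecidableEq ι]

theorem invT_TV (f : Sh n) (S : Cu ι) (v : Fin (nS n S) → ℂ) (t : ℂ) : InvT f (Pi.mulSingle S (TV v t) : MJ (nS n)) :=
  fun p hp => inv_TV1 (emS_inj f) p hp S v t

/-- the translations -/
theorem invT_tr (f : Sh n) {S : Cu ι} (hS : Odd (nS n S)) (v : Fin (nS n S) → ℂ) (t : ℂ) :
    InvT f (Pi.mulSingle S (1 + t • vecMulVec (jm ℂ (nS n S) *ᵥ v) (nu ℂ (nS n S))) : MJ (nS n)) := by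
  have h := invT_mul (invT_TV f S (v + t • nu ℂ (nS n S)) 1) (invT_TV f S v (-1))
  rw [← Pi.mulSingle_mul, TV_TV hS] at h
  exact h

end roots

section transfer

/-- the indices of the periods of the third kind -/
abbrev FZ (n : ι → ℕ) : Type := Fr (nS n)

/-- the indices of all periods -/
abbrev EZ (n : ι → ℕ) : Type := EX (nS n)

/-- the periods of the third kind -/
noncomputable def frZ (f : Sh n) (a : (Σ i, Fin (n i + 2)) → ℂ) (s : FZ n) : ℂ :=
  ((sgS n (ld a) s.1)⁻¹ • PE w0 (fun r => EE f a (emS f s.1 r))) (cst s.2.2) (gx s.2.1)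

/-- the values of the periods of the third kind -/
noncomputable def MUZ (σ : Cu ι → ℂ) (Z : MJ (nS n)) (q : FZ n) : ℂ :=
  (σ q.1)⁻¹ * (dl (cst q.2.2 : Fin (nS n q.1)) * wk (nS n q.1) (gx q.2.1)) * Z q.1 (cst q.2.2) (gx q.2.1)

/-- the transfer of relations to the roots -/
noncomputable def trZ (f : Sh n) (c : ι → ℂ) (σ : Cu ι → ℂ) :
    MvPolynomial (EZ n) (MvPolynomial (Σ i, Fin (n i + 2)) ℂ) →+*
    MvPolynomial (Ix (nS n)) (MvPolynomial (Fin (NN n + 1)) ℂ) :=
  MvPolynomial.eval₂Hom (MvPolynomial.C.comp (MvPolynomial.eval₂Hom MvPolynomial.C fun s => vaS f c s))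
    (Sum.elim (fun q => ∑ k : Fin (nS n q.1), MvPolynomial.C (MvPolynomial.C ((σ q.1)⁻¹ *
      (dl (cst q.2.1 : Fin (nS n q.1)) * w0 ^ (2 * (k : ℤ) + 1 - nS n q.1))) *
      cfS f c q.1 k q.2.2) * MvPolynomial.X (⟨q.1, (cst q.2.1, k)⟩ : Ix (nS n)))
      (fun q => MvPolynomial.C (MvPolynomial.C ((σ q.1)⁻¹ * (dl (cst q.2.2 : Fin (nS n q.1)) *
        wk (nS n q.1) (gx q.2.1)))) * MvPolynomial.X (⟨q.1, (cst q.2.2, gx q.2.1)⟩ : Ix (nS n))))

theorem trZ_ev (f : Sh n) (c : ι → ℂ) (σ : Cu ι → ℂ) (e : Fin (NN n + 1) → ℂ) (Z : MJ (nS n))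
    (p : MvPolynomial (EZ n) (MvPolynomial (Σ i, Fin (n i + 2)) ℂ)) :
    evX e (fun q => Z q.1 q.2.1 q.2.2) (trZ f c σ p) =
      evX (PhS f c e) (Sum.elim (fun q => MAJ f c σ e Z q.1 q.2.1 q.2.2) (MUZ σ Z)) p := by
  have h1 : (MvPolynomial.eval₂Hom (MvPolynomial.eval e) (fun q : Ix (nS n) => Z q.1 q.2.1 q.2.2)).comp (trZ f c σ) =
      MvPolynomial.eval₂Hom (MvPolynomial.eval (PhS f c e))
        (Sum.elim (fun q => MAJ f c σ e Z q.1 q.2.1 q.2.2) (MUZ σ Z)) := by
    refine MvPolynomial.ringHom_ext (fun b => ?_) (fun q => ?_)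
    · have h2 : ((MvPolynomial.eval₂Hom (MvPolynomial.eval e) (fun q : Ix (nS n) => Z q.1 q.2.1 q.2.2)).comp
          (trZ f c σ)).comp MvPolynomial.C = MvPolynomial.eval (PhS f c e) := by
        refine MvPolynomial.ringHom_ext (fun d => ?_) (fun k => ?_)
        · simp [trZ]
        · simp only [RingHom.comp_apply, trZ, MvPolynomial.eval₂Hom_C, MvPolynomial.eval₂Hom_X', MvPolynomial.eval_X,
            vaS_eval]
      have h3 := congrArg (fun g => g b) h2
      simp only [RingHom.comp_apply] at h3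
      rw [RingHom.comp_apply, h3]
      exact (MvPolynomial.eval₂Hom_C _ _ _).symm
    · rcases q with q | q
      · simp only [RingHom.comp_apply, trZ, MvPolynomial.eval₂Hom_X', map_sum, map_mul, MvPolynomial.eval₂Hom_C,
          MvPolynomial.eval_C, cfS_eval, Sum.elim_inl]
        unfold MAJ
        rw [Matrix.of_apply]
      · simp only [RingHom.comp_apply, trZ, MvPolynomial.eval₂Hom_X', map_mul, MvPolynomial.eval₂Hom_C,
          MvPolynomial.eval_C, Sum.elim_inr]
        rfl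
  exact congrArg (fun g => g p) h1

theorem MUZ_PF (f : Sh n) {c : ι → ℂ} (hc : ∀ i, c i / u0 ∈ Complex.slitPlane) {e : Fin (NN n + 1) → ℂ}
    (he : e ∈ Ord (NN n)) : MUZ (sgS n c) (N156.HC.PF (emS f) e) = frZ f (PhS f c e) := by
  funext q
  unfold MUZ frZ wk
  rw [ld_PhS, EE_PhS f hc he, Matrix.smul_apply, smul_eq_mul]
  unfold PE
  rw [Matrix.of_apply]
  show _ * perC (fun r => e (emS f q.1 r)) (cst q.2.2) (gx q.2.1) = _
  ring

variable [DecidableEq ι]

theorem MAJ_trS (f : Sh n) {c : ι → ℂ} (hc : ∀ i, c i / u0 ∈ Complex.slitPlane) {e : Fin (NN n + 1) → ℂ}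
    (he : e ∈ Ord (NN n)) (σ : Cu ι → ℂ) {S : Cu ι} (hS : Odd (nS n S)) (y : Fin (nS n S) → ℂ) :
    MAJ f c σ e ((Pi.mulSingle S (1 + (1 : ℂ) • vecMulVec y (nu ℂ (nS n S))) : MJ (nS n)) * N156.HC.PF (emS f) e) =
      MAJ f c σ e (N156.HC.PF (emS f) e) := by
  funext S'
  by_cases hSS : S' = S
  · subst hSS
    ext l i
    unfold MAJ
    rw [Matrix.of_apply, Matrix.of_apply]
    have h0 : ∀ k : Fin (nS n S'), ((Pi.mulSingle S' (1 + (1 : ℂ) • vecMulVec y (nu ℂ (nS n S'))) : MJ (nS n)) *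
        N156.HC.PF (emS f) e) S' (cst l) k = N156.HC.PF (emS f) e S' (cst l) k +
          y (cst l) * rho (fun r => e (emS f S' r)) k := by
      intro k
      rw [Pi.mul_apply, Pi.mulSingle_eq_same, Matrix.add_mul, Matrix.one_mul, one_smul, Matrix.vecMulVec_mul,
        Matrix.add_apply, vecMulVec_apply]
      rfl
    have hrho := rho_gen hS (σ := sgS n c S') (c := ∏ j ∈ S'.1, c j)
      (Finset.prod_ne_zero_iff.2 fun j _ => slit_ne (hc j)) (sgS_sq n (fun j => slit_ne (hc j)) S')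
      (emS_ord f S' he) (F := FS (pj (PhS f c e)) S') (by
        have h1 := FS_eq f (PhS_mem f hc he) S'
        rw [ld_PhS, EE_PhS f hc he] at h1
        exact h1) (fun k hk => FS_big _ S' hk) i
    have h1 : ∀ k : Fin (nS n S'), (σ S')⁻¹ * (dl (cst l : Fin (nS n S')) * w0 ^ (2 * (k : ℤ) + 1 - nS n S')) *
        cf (nS n S') (FS (pj (PhS f c e)) S') k i *
        ((Pi.mulSingle S' (1 + (1 : ℂ) • vecMulVec y (nu ℂ (nS n S'))) : MJ (nS n)) * N156.HC.PF (emS f) e) S' (cst l) k =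
        (σ S')⁻¹ * (dl (cst l : Fin (nS n S')) * w0 ^ (2 * (k : ℤ) + 1 - nS n S')) *
        cf (nS n S') (FS (pj (PhS f c e)) S') k i * N156.HC.PF (emS f) e S' (cst l) k +
        ((σ S')⁻¹ * dl (cst l : Fin (nS n S')) * y (cst l)) * (wk (nS n S') k * rho (fun r => e (emS f S' r)) k *
          cf (nS n S') (FS (pj (PhS f c e)) S') k i) := by
      intro k
      rw [h0]
      unfold wk
      ring
    simp only [h1]
    rw [Finset.sum_add_distrib, ← Finset.mul_sum, hrho, mul_zero, add_zero]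
  · unfold MAJ
    simp only [Pi.mul_apply, Pi.mulSingle_eq_of_ne hSS, one_mul]

end transfer

section free

variable [DecidableEq ι]

/-- specialisation of the coordinates of some of the curves -/
noncomputable def spI {X : Type} (A : Finset (Cu ι)) (z : FZ n → ℂ) :
    MvPolynomial (EZ n) (MvPolynomial X ℂ) →+* MvPolynomial (EZ n) (MvPolynomial X ℂ) :=
  MvPolynomial.eval₂Hom MvPolynomial.C (Sum.elim (fun q => MvPolynomial.X (Sum.inl q))
    (fun s => if s.1 ∈ A then MvPolynomial.C (MvPolynomial.C (z s)) else MvPolynomial.X (Sum.inr s)))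

theorem spI_ev {X : Type} (A : Finset (Cu ι)) (z : FZ n → ℂ) (x : X → ℂ) (Y : Ix (mS n) → ℂ) (u : FZ n → ℂ)
    (p : MvPolynomial (EZ n) (MvPolynomial X ℂ)) :
    evX x (Sum.elim Y u) (spI A z p) = evX x (Sum.elim Y fun s => if s.1 ∈ A then z s else u s) p := by
  have h1 : (MvPolynomial.eval₂Hom (MvPolynomial.eval x) (Sum.elim Y u)).comp (spI A z) =
      MvPolynomial.eval₂Hom (MvPolynomial.eval x) (Sum.elim Y fun s => if s.1 ∈ A then z s else u s) := by
    refine MvPolynomial.ringHom_ext (fun b => ?_) (fun q => ?_)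
    · simp [spI]
    · rcases q with q | q
      · simp [spI]
      · by_cases h : q.1 ∈ A
        · simp [spI, h]
        · simp [spI, h]
  exact congrArg (fun g => g p) h1

theorem evPF_an (f : Sh n) (p : MvPolynomial (Ix (nS n)) (MvPolynomial (Fin (NN n + 1)) ℂ)) :
    AnalyticOnNhd ℂ (fun e : Fin (NN n + 1) → ℂ => evX e (fun q => N156.HC.PF (emS f) e q.1 q.2.1 q.2.2) p)
      (Ord (NN n)) := by
  have h1 : ∀ q : Ix (nS n), AnalyticOnNhd ℂ (fun e : Fin (NN n + 1) → ℂ => N156.HC.PF (emS f) e q.1 q.2.1 q.2.2)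
      (Ord (NN n)) := fun q => N156.HC.PF_an (em := emS f) q.1 q.2.1 q.2.2
  exact evM_an (f := fun (q : Ix (nS n)) (e : Fin (NN n + 1) → ℂ) => N156.HC.PF (emS f) e q.1 q.2.1 q.2.2) h1 p

theorem rho_an_em (f : Sh n) (S0 : Cu ι) (g0 : Fin (nS n S0)) :
    AnalyticOnNhd ℂ (fun e : Fin (NN n + 1) → ℂ => rho (fun r => e (emS f S0 r)) g0) (Ord (NN n)) := by
  intro e he
  have h4 := rho_an g0 (fun r => e (emS f S0 r)) (emS_ord f S0 he)
  have h5 : AnalyticAt ℂ (fun (e : Fin (NN n + 1) → ℂ) (r : Fin (nS n S0 + 1)) => e (emS f S0 r)) e :=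
    (ContinuousLinearMap.pi fun r => ContinuousLinearMap.proj (R := ℂ) (φ := fun _ : Fin (NN n + 1) => ℂ)
      (emS f S0 r)).analyticAt e
  exact AnalyticAt.fun_comp (g := fun e : Fin (nS n S0 + 1) → ℂ => rho e g0) h4 h5

/-- **one curve** -/
theorem free_S (f : Sh n) (S0 : Cu ι) (p : MvPolynomial (EZ n) (MvPolynomial (Σ i, Fin (n i + 2)) ℂ))
    (hp : ∀ a ∈ DD f, evX a (Sum.elim (fun q => PB f a q.1 q.2.1 q.2.2) (frZ f a)) p = 0) (z : FZ n → ℂ) :
    ∀ a ∈ DD f, evX a (Sum.elim (fun q => PB f a q.1 q.2.1 q.2.2)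
      (fun s => if s.1 ∈ ({S0} : Finset (Cu ι)) then z s else frZ f a s)) p = 0 := by
  rcases Nat.even_or_odd (nS n S0) with hev | hn
  · intro a ha
    have h1 := hp a ha
    have h2 : (fun s : FZ n => if s.1 ∈ ({S0} : Finset (Cu ι)) then z s else frZ f a s) = frZ f a := by
      funext s
      obtain ⟨S, u, l⟩ := s
      by_cases h : S = S0
      · subst h
        exact absurd (odd_of u) (Nat.not_odd_iff_even.2 hev)
      · rw [if_neg (by rw [Finset.mem_singleton]; exact h)]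
    rw [h2]
    exact h1
  · intro a ha
    have hc : ∀ i, ld a i / u0 ∈ Complex.slitPlane := fun i => (ha.1 i).1
    have he0U : EE f a ∈ Ord (NN n) := ha.2
    have hva : PhS f (ld a) (EE f a) = a := PhS_surj ha.1
    generalize ld a = c at hc hva
    generalize EE f a = e0 at he0U hva
    have hs0 : sgS n c S0 ≠ 0 := sgS_ne n (fun j => slit_ne (hc j)) S0
    have hlt : nS n S0 / 2 < nS n S0 := by
      obtain ⟨g, hg⟩ := hn
      omega
    set g0 : Fin (nS n S0) := ⟨nS n S0 / 2, hlt⟩ with hg0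
    have hgx : ∀ u : Fin (nS n S0 % 2), gx u = g0 := fun u => rfl
    have hwk : wk (nS n S0) g0 ≠ 0 := zpow_ne_zero _ w0_ne
    -- relations for the roots
    have h1 : ∀ e ∈ Ord (NN n), evX e (fun q => N156.HC.PF (emS f) e q.1 q.2.1 q.2.2) (trZ f c (sgS n c) p) = 0 := by
      intro e he
      rw [trZ_ev, MAJ_PF f hc he, MUZ_PF f hc he]
      exact hp _ (PhS_DD f hc he)
    -- the relation at the points where the residue does not vanish
    have h2 : ∀ e ∈ Ord (NN n), rho (fun r => e (emS f S0 r)) g0 ≠ 0 →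
        evX (PhS f c e) (Sum.elim (fun q => PB f (PhS f c e) q.1 q.2.1 q.2.2)
          (fun s => if s.1 ∈ ({S0} : Finset (Cu ι)) then z s else frZ f (PhS f c e) s)) p = 0 := by
      intro e he hr
      have hdet : IsUnit (jm ℂ (mm (nS n S0))).det := isUnit_iff_ne_zero.2 (jm_det (mm_even (nS n S0)))
      have h0u : 0 < nS n S0 % 2 := by
        have := Nat.odd_iff.1 hn
        omega
      have huu : ∀ u : Fin (nS n S0 % 2), u = ⟨0, h0u⟩ := by
        intro u
        have := u.2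
        exact Fin.ext (by show (u : ℕ) = 0; omega)
      set y : Fin (mm (nS n S0)) → ℂ := fun l => (z ⟨S0, (⟨0, h0u⟩, l)⟩ * sgS n c S0 /
        (dl (cst l : Fin (nS n S0)) * wk (nS n S0) g0) -
        N156.HC.PF (emS f) e S0 (cst l) g0) / rho (fun r => e (emS f S0 r)) g0 with hy
      set v : Fin (mm (nS n S0)) → ℂ := (jm ℂ (mm (nS n S0)))⁻¹ *ᵥ y with hv
      have h3 : jm ℂ (mm (nS n S0)) *ᵥ v = y := by
        rw [hv, Matrix.mulVec_mulVec, Matrix.mul_nonsing_inv _ hdet, Matrix.one_mulVec]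
      have h4 : ∀ l : Fin (mm (nS n S0)), (jm ℂ (nS n S0) *ᵥ ez v) (cst l) = y l := by
        intro l
        rw [← h3, jm_mulVec, jm_mulVec, ext0_ez, ext0_ez]
        rfl
      have h5 := invT_tr f hn (ez v) 1 _ h1 e he
      rw [trZ_ev, MAJ_trS f hc he _ hn, MAJ_PF f hc he] at h5
      have h6 : MUZ (sgS n c) ((Pi.mulSingle S0 (1 + (1 : ℂ) • vecMulVec (jm ℂ (nS n S0) *ᵥ ez v) (nu ℂ (nS n S0))) :
          MJ (nS n)) * N156.HC.PF (emS f) e) =
          fun s => if s.1 ∈ ({S0} : Finset (Cu ι)) then z s else frZ f (PhS f c e) s := by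
        funext s
        obtain ⟨S, u, l⟩ := s
        by_cases hSS : S = S0
        · subst hSS
          rw [if_pos (Finset.mem_singleton_self _), huu u]
          unfold MUZ
          rw [Pi.mul_apply, Pi.mulSingle_eq_same, Matrix.add_mul, Matrix.one_mul, one_smul, Matrix.vecMulVec_mul,
            Matrix.add_apply, vecMulVec_apply, h4]
          show (sgS n c S)⁻¹ * (dl (cst l : Fin (nS n S)) * wk (nS n S) g0) *
            (N156.HC.PF (emS f) e S (cst l) g0 + y l * rho (fun r => e (emS f S r)) g0) = _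
          rw [hy]
          simp only
          have h7 := dl_ne (cst l : Fin (nS n S))
          field_simp
          ring
        · rw [if_neg (by rw [Finset.mem_singleton]; exact hSS), ← MUZ_PF f hc he]
          unfold MUZ
          rw [Pi.mul_apply, Pi.mulSingle_eq_of_ne hSS, one_mul]
      rw [h6] at h5
      exact h5
    -- all points
    have h3 : ∀ e ∈ Ord (NN n), evX e (fun q => N156.HC.PF (emS f) e q.1 q.2.1 q.2.2)
        (trZ f c (sgS n c) (spI {S0} z p)) =
        evX (PhS f c e) (Sum.elim (fun q => PB f (PhS f c e) q.1 q.2.1 q.2.2)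
          (fun s => if s.1 ∈ ({S0} : Finset (Cu ι)) then z s else frZ f (PhS f c e) s)) p := by
      intro e he
      rw [trZ_ev, MAJ_PF f hc he, MUZ_PF f hc he, spI_ev]
    have h4 := zero_or_zero (U := Ord (NN n)) (f := fun e => rho (fun r => e (emS f S0 r)) g0)
      (g := fun e => evX e (fun q => N156.HC.PF (emS f) e q.1 q.2.1 q.2.2) (trZ f c (sgS n c) (spI {S0} z p)))
      (rho_an_em f S0 g0) (evPF_an f _) (Ord_convex (NN n)).isPreconnected (by
        rw [(Ord_open (NN n)).nhdsSet_eq, eventually_principal]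
        intro e he
        by_cases hr : rho (fun r => e (emS f S0 r)) g0 = 0
        · rw [hr, zero_mul]
        · rw [h3 e he, h2 e he hr, mul_zero])
    rcases h4 with h4 | h4
    · exfalso
      have hm : StrictMono (fun i : Fin (NN n + 1) => ((i : ℕ) : ℝ)) := fun i k h => by
        show ((i : ℕ) : ℝ) < ((k : ℕ) : ℝ)
        exact_mod_cast h
      have h5 : rho (fun r : Fin (nS n S0 + 1) => ((((emS f S0 r : Fin (NN n + 1)) : ℕ) : ℝ) : ℂ)) g0 = 0 :=
        h4 (fun i : Fin (NN n + 1) => (((i : ℕ) : ℝ) : ℂ)) (Ord_real hm)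
      have hm' : StrictMono (fun r : Fin (nS n S0 + 1) => (((emS f S0 r : Fin (NN n + 1)) : ℕ) : ℝ)) :=
        hm.comp (emS f S0).strictMono
      exact rho_ne (e := fun r : Fin (nS n S0 + 1) => (((emS f S0 r : Fin (NN n + 1)) : ℕ) : ℝ)) hn hm' hlt h5
    · have h5 := h4 e0 he0U
      rw [h3 e0 he0U, hva] at h5
      exact h5

/-- some of the curves -/
theorem free_A (f : Sh n) (p : MvPolynomial (EZ n) (MvPolynomial (Σ i, Fin (n i + 2)) ℂ))
    (hp : ∀ a ∈ DD f, evX a (Sum.elim (fun q => PB f a q.1 q.2.1 q.2.2) (frZ f a)) p = 0) (z : FZ n → ℂ)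
    (A : Finset (Cu ι)) :
    ∀ a ∈ DD f, evX a (Sum.elim (fun q => PB f a q.1 q.2.1 q.2.2)
      (fun s => if s.1 ∈ A then z s else frZ f a s)) p = 0 := by
  induction A using Finset.induction_on with
  | empty =>
    intro a ha
    simpa using hp a ha
  | insert S0 A _ ih =>
    intro a ha
    have h1 := free_S f S0 (spI A z p) (fun a ha => by
      rw [spI_ev]
      exact ih a ha) z a ha
    rw [spI_ev] at h1
    rw [← h1]
    congr 2
    funext s
    by_cases h : s.1 ∈ A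
    · rw [if_pos h, if_pos (Finset.mem_insert_of_mem h)]
    · rw [if_neg h]
      by_cases h' : s.1 = S0
      · rw [if_pos (by rw [h']; exact Finset.mem_insert_self _ _), if_pos (by rw [h']; exact Finset.mem_singleton_self _)]
      · rw [if_neg (by rw [Finset.mem_insert]; exact fun h'' => h''.elim h' h), if_neg (by rw [Finset.mem_singleton]; exact h')]

/-- **the periods of the third kind of all the curves are free** -/
theorem free_Z (f : Sh n) (p : MvPolynomial (EZ n) (MvPolynomial (Σ i, Fin (n i + 2)) ℂ))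
    (hp : ∀ a ∈ DD f, evX a (Sum.elim (fun q => PB f a q.1 q.2.1 q.2.2) (frZ f a)) p = 0) (z : FZ n → ℂ) :
    ∀ a ∈ DD f, evX a (Sum.elim (fun q => PB f a q.1 q.2.1 q.2.2) z) p = 0 := by
  intro a ha
  have h1 := free_A f p hp z Finset.univ a ha
  simpa using h1

end free

end Pool.Agent.N121.ZO
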